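import Mathlib

set_option autoImplicit false

/-!
# Median eigenvalues of graphs

The ordered eigenvalues of the adjacency matrix of a graph, the average degree, and a bound for the
`(r+1)`-st largest eigenvalue of a symmetric matrix `P * B + c • 1` where `B` has `r` rows.
-/

open Matrix

namespace Q53.Median

/-- The adjacency matrix over the reals is symmetric. -/
theorem herm {n : ℕ} (G : SimpleGraph (Fin n)) [DecidableRel G.Adj] :
    (G.adjMatrix ℝ).IsHermitian := by
  rw [Matrix.IsHermitian, Matrix.conjTranspose_eq_transpose_of_trivial]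
  exact G.transpose_adjMatrix

/-- `lam G k` is the `k`-th largest eigenvalue (`1 ≤ k ≤ n`) of the adjacency matrix of the graph
`G` on `n` vertices, the eigenvalues being listed in weakly decreasing order with multiplicity. -/
noncomputable def lam {n : ℕ} (G : SimpleGraph (Fin n)) [DecidableRel G.Adj] (k : ℕ) : ℝ :=
  if h : k - 1 < Fintype.card (Fin n) then (herm G).eigenvalues₀ ⟨k - 1, h⟩ else 0

/-- The average degree `2 |E(G)| / n`. -/
noncomputable def avgDeg {n : ℕ} (G : SimpleGraph (Fin n)) [DecidableRel G.Adj] : ℝ :=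
  2 * (G.edgeFinset.card : ℝ) / n

/-- If the symmetric matrix `A` equals `P * B + c • 1`, where `B` has only `r` rows, then at most
`r` eigenvalues of `A` exceed `c`. -/
theorem eigen_le {V : Type*} [Fintype V] [DecidableEq V] {A : Matrix V V ℝ} (hA : A.IsHermitian)
    {r : ℕ} (c : ℝ) (P : Matrix V (Fin r) ℝ) (B : Matrix (Fin r) V ℝ)
    (h : A = P * B + c • (1 : Matrix V V ℝ)) (hr : r < Fintype.card V) :
    hA.eigenvalues₀ ⟨r, hr⟩ ≤ c := by
  by_contra hlt
  push Not at hlt
  let e : Fin (Fintype.card V) ≃ V := Fintype.equivOfCardEq (Fintype.card_fin _)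
  let ι : Fin (r + 1) → V := fun i => e (Fin.castLE hr i)
  have hι : Function.Injective ι := fun i j hij => Fin.castLE_injective hr (e.injective hij)
  let v : Fin (r + 1) → (V → ℝ) := fun i => ⇑(hA.eigenvectorBasis (ι i))
  have hv : ∀ i, A *ᵥ v i = hA.eigenvalues (ι i) • v i := fun i => hA.mulVec_eigenvectorBasis _
  have hval : ∀ i : Fin (r + 1), c < hA.eigenvalues (ι i) := by
    intro i
    have h1 : hA.eigenvalues (ι i) = hA.eigenvalues₀ (Fin.castLE hr i) := by
      simp only [Matrix.IsHermitian.eigenvalues, ι, e, Equiv.symm_apply_apply]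
    rw [h1]
    refine lt_of_lt_of_le hlt (hA.eigenvalues₀_antitone ?_)
    rw [Fin.le_def]
    have := i.2
    simp only [Fin.val_castLE]
    omega
  have hli : LinearIndependent ℝ v := by
    have h1 : LinearIndependent ℝ (fun i => hA.eigenvectorBasis (ι i)) :=
      hA.eigenvectorBasis.orthonormal.linearIndependent.comp ι hι
    exact h1.map' (WithLp.linearEquiv 2 ℝ (V → ℝ)).toLinearMap (LinearEquiv.ker _)
  let T : (Fin (r + 1) → ℝ) →ₗ[ℝ] (Fin r → ℝ) :=
    (Matrix.mulVecLin B).comp (Fintype.linearCombination ℝ v)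
  have hT : LinearMap.ker T ≠ ⊥ := by
    apply LinearMap.ker_ne_bot_of_finrank_lt
    simp
  obtain ⟨a, ha, ha0⟩ := (Submodule.ne_bot_iff _).1 hT
  rw [LinearMap.mem_ker] at ha
  have hx : B *ᵥ (∑ i, a i • v i) = 0 := by
    rw [LinearMap.comp_apply, Fintype.linearCombination_apply, Matrix.mulVecLin_apply] at ha
    exact ha
  have h1 : A *ᵥ (∑ i, a i • v i) = c • ∑ i, a i • v i := by
    rw [h, Matrix.add_mulVec, ← Matrix.mulVec_mulVec, hx, Matrix.mulVec_zero, zero_add,
      Matrix.smul_mulVec, Matrix.one_mulVec]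
  have h2 : ∑ i, (a i * (hA.eigenvalues (ι i) - c)) • v i = 0 := by
    have h3 : A *ᵥ (∑ i, a i • v i) = ∑ i, (a i * hA.eigenvalues (ι i)) • v i := by
      rw [← Matrix.mulVecLin_apply, map_sum]
      refine Finset.sum_congr rfl fun i _ => ?_
      rw [map_smul, Matrix.mulVecLin_apply, hv, smul_smul]
    rw [h3, Finset.smul_sum, ← sub_eq_zero, ← Finset.sum_sub_distrib] at h1
    rw [← h1]
    refine Finset.sum_congr rfl fun i _ => ?_
    rw [smul_smul, ← sub_smul]
    ring_nf
  have h3 := Fintype.linearIndependent_iff.1 hli _ h2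
  apply ha0
  funext i
  have h4 := h3 i
  rcases mul_eq_zero.1 h4 with h5 | h5
  · simpa using h5
  · exact absurd h5 (sub_pos.2 (hval i)).ne'

end Q53.Median
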