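import Pool.Agent.Q53.Median.Basic

set_option autoImplicit false

/-!
# The disjoint union of one `4 × 4` and two `3 × 3` rook graphs

It has 34 vertices and 84 edges, and 17 of its eigenvalues are `-2`.
-/

open Matrix

namespace Q53.Median

/-- Row of a vertex: rows `0-3` belong to the `4 × 4` board, rows `4-6` and `7-9` to the
two `3 × 3` boards. -/
def row (v : Fin 34) : ℕ := if v.1 < 16 then v.1 / 4 else 4 + (v.1 - 16) / 3

/-- Column of a vertex: columns `0-3` belong to the `4 × 4` board, columns `4-6` and `7-9` to the
two `3 × 3` boards. -/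
def col (v : Fin 34) : ℕ :=
  if v.1 < 16 then v.1 % 4 else if v.1 < 25 then 4 + (v.1 - 16) % 3 else 7 + (v.1 - 25) % 3

/-- The union of the three rook graphs: two squares are adjacent when they are distinct and lie in
a common row or in a common column. -/
def rooks : SimpleGraph (Fin 34) where
  Adj v w := v ≠ w ∧ (row v = row w ∨ col v = col w)
  symm := ⟨fun _ _ h => ⟨h.1.symm, h.2.imp Eq.symm Eq.symm⟩⟩
  loopless := ⟨fun _ h => h.1 rfl⟩

instance : DecidableRel rooks.Adj := fun v w =>
  inferInstanceAs (Decidable (v ≠ w ∧ (row v = row w ∨ col v = col w)))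

/-- The columns other than the last column of each board. -/
def cols : List ℕ := [0, 1, 2, 4, 5, 7, 8]

/-- Seventeen lines: the ten rows and seven of the ten columns. -/
def B (k : Fin 17) (v : Fin 34) : ℤ :=
  if k.1 < 10 then (if row v = k.1 then 1 else 0) else (if col v = cols.getD (k.1 - 10) 99 then 1 else 0)

/-- Board of a line. -/
def board (l : ℕ) : ℕ := if l < 4 then 0 else if l < 7 then 1 else 2

/-- Last column of a board. -/
def last (b : ℕ) : ℕ := if b = 0 then 3 else if b = 1 then 6 else 9

/-- Coefficients: the sum over the row of `v` plus the sum over the column of `v`, the last column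
of a board being the sum of its rows minus its other columns. -/
def P (v : Fin 34) (k : Fin 17) : ℤ :=
  (if k.1 < 10 then (if row v = k.1 then 1 else 0) else 0) +
  (if col v = last (board (col v)) then
    (if k.1 < 10 then (if board k.1 = board (col v) then 1 else 0)
      else (if board (cols.getD (k.1 - 10) 99) = board (col v) then -1 else 0))
   else (if k.1 < 10 then 0 else (if col v = cols.getD (k.1 - 10) 99 then 1 else 0)))

theorem factor : ∀ v w : Fin 34, (if rooks.Adj v w then (1 : ℤ) else 0) =
    (∑ k : Fin 17, P v k * B k w) - 2 * (if v = w then 1 else 0) := by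
  decide +kernel

theorem card_edges : rooks.edgeFinset.card = 84 := by
  have h : ∀ v : Fin 34, rooks.degree v = if v.1 < 16 then 6 else 4 := by decide +kernel
  have h1 := rooks.sum_degrees_eq_twice_card_edges
  have h2 : ∑ v : Fin 34, (if v.1 < 16 then 6 else 4) = 168 := by decide +kernel
  rw [Finset.sum_congr rfl fun v _ => h v, h2] at h1
  omega

theorem adj_eq : rooks.adjMatrix ℝ = (Matrix.of fun v k => (P v k : ℝ)) *
    (Matrix.of fun k v => (B k v : ℝ)) + (-2 : ℝ) • (1 : Matrix (Fin 34) (Fin 34) ℝ) := by
  ext v w
  have h := congrArg (fun z : ℤ => (z : ℝ)) (factor v w)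
  simp only [Int.cast_ite, Int.cast_sub, Int.cast_sum, Int.cast_mul, Int.cast_one, Int.cast_zero,
    Int.cast_ofNat] at h
  rw [SimpleGraph.adjMatrix_apply, h, Matrix.add_apply, Matrix.mul_apply, Matrix.smul_apply,
    Matrix.one_apply]
  simp only [Matrix.of_apply, smul_eq_mul]
  ring

/-- The 18th largest eigenvalue is at most `-2`. -/
theorem lam_le : lam rooks 18 ≤ -2 := by
  have h : 18 - 1 < Fintype.card (Fin 34) := by simp
  rw [lam, dif_pos h]
  exact eigen_le (herm rooks) (-2) _ _ adj_eq h

end Q53.Median
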